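import Mathlib

set_option autoImplicit false
open Set Topology Filter

/-! Open subsets of `ℝ^(d+k+1)` which dominate the `k`-dimensional torus. -/

namespace Pool.Agent.Y511.FQ

/-- the circle `ℝ/ℤ` -/
abbrev TT := AddCircle (1 : ℝ)

/-- the angle of a complex number, in `ℝ/ℤ` -/
noncomputable def angT (z : ℂ) : TT :=
  (AddCircle.homeomorphCircle (T := 1) one_ne_zero).symm (Circle.exp (Complex.arg z))

theorem angT_cont {z : ℂ} (hz : z ≠ 0) : ContinuousAt angT z := by
  apply (AddCircle.homeomorphCircle (T := 1) one_ne_zero).symm.continuous.continuousAt.comp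
  refine (Topology.IsInducing.continuousAt_iff
    (⟨rfl⟩ : Topology.IsInducing (fun c : Circle => (c : ℂ)))).2 ?_
  have h1 : ContinuousAt (fun w : ℂ => w / ‖w‖) z := by
    apply ContinuousAt.div continuousAt_id
    · exact (Complex.continuous_ofReal.comp continuous_norm).continuousAt
    · simpa using hz
  apply h1.congr
  filter_upwards [isOpen_ne.mem_nhds hz] with w hw
  have hw' : (‖w‖ : ℂ) ≠ 0 := by simpa using hw
  change w / ‖w‖ = (Circle.exp (Complex.arg w) : ℂ)
  rw [Circle.coe_exp, div_eq_iff hw', mul_comm]
  exact (Complex.norm_mul_exp_arg_mul_I w).symm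

/-- the point of the circle with angle `t` -/
noncomputable def cir (t : TT) : ℂ := ((AddCircle.homeomorphCircle (T := 1) one_ne_zero) t : ℂ)

theorem cir_cont : Continuous cir :=
  continuous_subtype_val.comp (AddCircle.homeomorphCircle (T := 1) one_ne_zero).continuous

theorem norm_cir (t : TT) : ‖cir t‖ = 1 := Circle.norm_coe _

theorem angT_cir {r : ℝ} (hr : 0 < r) (t : TT) : angT ((r : ℂ) * cir t) = t := by
  unfold angT
  rw [Complex.arg_real_mul _ hr]
  unfold cir
  rw [Circle.exp_arg, Homeomorph.symm_apply_apply]

/-- the step and the base of the induction -/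
theorem exists_thick (d k : ℕ) : ∃ (V : Type) (_ : NormedAddCommGroup V) (_ : NormedSpace ℝ V)
    (_ : FiniteDimensional ℝ V), Module.finrank ℝ V = d + k ∧
    ∃ (M : Set (V × ℝ)) (e : (Fin k → TT) → V × ℝ) (p : V × ℝ → (Fin k → TT)) (c : ℝ),
      IsOpen M ∧ Continuous e ∧ (∀ y, e y ∈ M) ∧ ContinuousOn p M ∧ (∀ y, p (e y) = y) ∧
      0 < c ∧ ∀ y, |(e y).2| < c := by
  induction k with
  | zero =>
    refine ⟨EuclideanSpace ℝ (Fin d), inferInstance, inferInstance, inferInstance, by simp,
      univ, fun _ => 0, fun _ => 0, 1, isOpen_univ, continuous_const, fun _ => mem_univ _,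
      continuousOn_const, fun y => Subsingleton.elim _ _, one_pos, fun _ => by simp⟩
  | succ k ih =>
    obtain ⟨V, i1, i2, i3, hd, M, e, p, c, hM, he, heM, hp, hpe, hc, hec⟩ := ih
    -- the complex coordinate and the projection to the old space
    let Z : (V × ℝ) × ℝ → ℂ := fun w => (w.2 : ℂ) + (w.1.2 : ℂ) * Complex.I
    have hZ : Continuous Z := by
      exact (Complex.continuous_ofReal.comp continuous_snd).add
        ((Complex.continuous_ofReal.comp (continuous_snd.comp continuous_fst)).mul
          continuous_const)
    let q : (V × ℝ) × ℝ → V × ℝ := fun w => (w.1.1, ‖Z w‖ - c)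
    have hq : Continuous q := by
      exact (continuous_fst.comp continuous_fst).prodMk ((hZ.norm).sub continuous_const)
    let M' : Set ((V × ℝ) × ℝ) := {w | Z w ≠ 0} ∩ q ⁻¹' M
    let R : (Fin (k + 1) → TT) → ℝ := fun y => c + (e (Fin.tail y)).2
    let e' : (Fin (k + 1) → TT) → (V × ℝ) × ℝ := fun y =>
      (((e (Fin.tail y)).1, R y * (cir (y 0)).im), R y * (cir (y 0)).re)
    have htail : Continuous (fun y : Fin (k + 1) → TT => Fin.tail y) :=
      continuous_pi fun j => continuous_apply _
    have hR : Continuous R := continuous_const.add (continuous_snd.comp (he.comp htail))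
    have hR0 : ∀ y, 0 < R y := fun y => by
      have := (abs_lt.1 (hec (Fin.tail y))).1
      change 0 < c + (e (Fin.tail y)).2
      linarith
    have hZe : ∀ y, Z (e' y) = (R y : ℂ) * cir (y 0) := by
      intro y
      change ((R y * (cir (y 0)).re : ℝ) : ℂ) + ((R y * (cir (y 0)).im : ℝ) : ℂ) * Complex.I = _
      apply Complex.ext
      · simp
      · simp
    have hqe : ∀ y, q (e' y) = e (Fin.tail y) := by
      intro y
      change ((e (Fin.tail y)).1, ‖Z (e' y)‖ - c) = _
      rw [hZe, norm_mul, norm_cir, mul_one, Complex.norm_real, Real.norm_eq_abs,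
        abs_of_pos (hR0 y)]
      apply Prod.ext
      · rfl
      · change c + (e (Fin.tail y)).2 - c = _
        ring
    refine ⟨V × ℝ, inferInstance, inferInstance, inferInstance, ?_, M', e',
      fun w => Fin.cons (angT (Z w)) (p (q w)), 2 * c, ?_, ?_, ?_, ?_, ?_, by linarith, ?_⟩
    · rw [Module.finrank_prod, hd, Module.finrank_self]; rfl
    · exact (isOpen_ne_fun hZ continuous_const).inter (hM.preimage hq)
    · refine ((continuous_fst.comp (he.comp htail)).prodMk (hR.mul ?_)).prodMk (hR.mul ?_)
      · exact Complex.continuous_im.comp (cir_cont.comp (continuous_apply 0))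
      · exact Complex.continuous_re.comp (cir_cont.comp (continuous_apply 0))
    · intro y
      refine ⟨?_, ?_⟩
      · change Z (e' y) ≠ 0
        rw [hZe]
        refine mul_ne_zero (by exact_mod_cast (hR0 y).ne') ?_
        intro h0
        have := norm_cir (y 0)
        rw [h0, norm_zero] at this
        exact zero_ne_one this
      · change q (e' y) ∈ M
        rw [hqe]
        exact heM _
    · rw [continuousOn_pi]
      intro j
      refine Fin.cases ?_ (fun i => ?_) j
      · simp only [Fin.cons_zero]
        intro w hw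
        exact ((angT_cont hw.1).comp hZ.continuousAt).continuousWithinAt
      · simp only [Fin.cons_succ]
        exact (continuous_apply i).comp_continuousOn (hp.comp hq.continuousOn (fun w hw => hw.2))
    · intro y
      simp only
      rw [hZe, hqe, hpe, angT_cir (hR0 y)]
      exact Fin.cons_self_tail y
    · intro y
      change |R y * (cir (y 0)).re| < 2 * c
      rw [abs_mul, abs_of_pos (hR0 y)]
      have h1 : |(cir (y 0)).re| ≤ 1 := by
        rw [← norm_cir (y 0)]
        exact Complex.abs_re_le_norm _
      have h2 : R y < 2 * c := by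
        have := (abs_lt.1 (hec (Fin.tail y))).2
        change c + (e (Fin.tail y)).2 < 2 * c
        linarith
      calc R y * |(cir (y 0)).re| ≤ R y * 1 := mul_le_mul_of_nonneg_left h1 (hR0 y).le
        _ < 2 * c := by rw [mul_one]; exact h2

end Pool.Agent.Y511.FQ
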