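import Pool.Agent.H289R3.FQ.Main
import Pool.Agent.H672R3.FQ.Stokes
import Pool.Agent.H790.FQ.Torus

set_option autoImplicit false
open Set Topology Filter
open scoped ContDiff

/-! No open set which dominates the five-dimensional torus is the quotient of a flow on
`(ℝ² ∖ S) × ℝ^(n-1)`. -/

namespace Pool.Agent.Y511.FQ

open Pool.Agent.H289R3.FQ
open Pool.Agent

theorem not_realized_aux (hTorus : TaskTorus) {F : Type} [NormedAddCommGroup F] [NormedSpace ℝ F]
    [FiniteDimensional ℝ F] {n : ℕ} (hn : 1 ≤ n) (hF : Module.finrank ℝ F = n) {M : Set F}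
    (hMo : IsOpen M) {tor : (Fin 5 → ℝ) → F} (tor_cont : Continuous tor)
    (htorM : ∀ y, tor y ∈ M)
    (tor_int : ∀ (y : Fin 5 → ℝ) (k : Fin 5 → ℤ), tor (fun j => y j + k j) = tor y)
    {a : Fin 5 → F → T1} (ha : ∀ j, ContinuousOn (a j) M)
    (ang_tor : ∀ y j, a j (tor y) = ((y j : ℝ) : T1)) : ¬ RealizedAsQuotient n M := by
  classical
  have tor_ee : ∀ (y : Fin 5 → ℝ) (j : Fin 5), tor (y + ee j) = tor y := by
    intro y j
    have : y + ee j = fun i => y i + ((Pi.single j 1 : Fin 5 → ℤ) i : ℝ) := by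
      funext i
      simp only [Pi.add_apply, ee]
      by_cases h : i = j
      · subst h; simp
      · simp [h]
    rw [this, tor_int]
  rintro ⟨S, Φ, π, hS, hSd, hΦ, hπ⟩
  have hX : IsOpen (Total n S) := hS.isOpen_compl.preimage continuous_fst
  have hdim : Module.finrank ℝ (ℂ × EuclideanSpace ℝ (Fin (n - 1))) =
      Module.finrank ℝ F + 1 := by
    rw [Module.finrank_prod, finrank_euclideanSpace_fin, Complex.finrank_real_complex, hF]
    omega
  have h := qflow_of hdim hX hMo hΦ hπ
  set f : Total n S → F := fun x => π x with hf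
  have hπc : ContinuousOn π (Total n S) := continuousOn_iff_continuous_domRestrict.2 h.fcont
  have hM : ∀ x ∈ Total n S, π x ∈ M := by
    intro x hx
    rw [← hπ.image]; exact ⟨x, hx, rfl⟩
  have hsurj : ∀ y, ∃ x, f x = tor y := by
    intro y
    have := htorM y
    rw [← hπ.image] at this
    obtain ⟨x, hx, hxy⟩ := this
    exact ⟨⟨x, hx⟩, hxy⟩
  have hp : ∀ j, ContinuousOn (fun q => a j (π q)) (Total n S) := fun j =>
    (ha j).comp hπc hM
  have : LocallyCompactSpace (Total n S) := hX.locallyCompactSpace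
  have : Nonempty (Total n S) := ⟨(hsurj 0).choose⟩
  -- the torus and its bad part
  have hTc : IsCompact (range tor) := by
    have : range tor = tor '' Icc 0 1 := by
      apply Subset.antisymm
      · rintro _ ⟨y, rfl⟩
        refine ⟨fun j => Int.fract (y j), ⟨fun j => Int.fract_nonneg _, fun j => (Int.fract_lt_one _).le⟩, ?_⟩
        rw [← tor_int (fun j => Int.fract (y j)) (fun j => ⌊y j⌋)]
        congr 1
        funext j
        exact Int.fract_add_floor (y j)
      · rintro _ ⟨y, -, rfl⟩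
        exact ⟨y, rfl⟩
    rw [this]
    exact isCompact_Icc.image tor_cont
  let K : Set F := {m | m ∈ range tor ∧ ¬ IsCompact (f ⁻¹' {m})}
  have hKc : IsCompact K := by
    apply hTc.of_isClosed_subset _ (fun m hm => hm.1)
    rw [← isOpen_compl_iff, isOpen_iff_mem_nhds]
    intro m hm
    by_cases hmT : m ∈ range tor
    · have hmc : IsCompact (f ⁻¹' {m}) := by
        by_contra hcon
        exact hm ⟨hmT, hcon⟩
      obtain ⟨y, rfl⟩ := hmT
      obtain ⟨x, hx⟩ := hsurj y
      rw [← hx] at hmc ⊢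
      filter_upwards [h.compact_nhds hmc] with n hn hn'
      exact hn'.2 hn
    · filter_upwards [hTc.isClosed.isOpen_compl.mem_nhds hmT] with n hn hn'
      exact hn hn'.1
  obtain ⟨σ, hσc, hσ⟩ := h.exists_section hKc (by
    rintro m ⟨⟨y, rfl⟩, -⟩
    exact hsurj y) (by
    intro x hx t ht
    by_contra hne
    exact hx.2 (h.compact_of_periodic hne ht))
  -- a bound on the section
  have hbound : ∀ L : Set (Total n S), IsCompact L → ∃ R : ℝ, ∀ x ∈ L, ‖x.1.1‖ < R := by
    intro L hL
    obtain ⟨B, hB⟩ := hL.exists_bound_of_continuousOn (f := fun x : Total n S => x.1.1)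
      (continuous_fst.comp continuous_subtype_val).continuousOn
    exact ⟨B + 1, fun x hx => (hB x hx).trans_lt (lt_add_one _)⟩
  obtain ⟨R₁, hR₁⟩ := hbound _ (hKc.image_of_continuousOn hσc)
  obtain ⟨Θ₁, hΘ₁c, hΘ₁⟩ := H853R3.FQTheta.taskTheta (n - 1) S hS hSd R₁
    (fun q => a 0 (π q)) (fun q => a 1 (π q)) (hp 0) (hp 1)
  -- the bad set in the universal cover of the torus
  let C : Set (Fin 5 → ℝ) := {y | tor y ∈ K}
  have hCint : ∀ (y : Fin 5 → ℝ) (k : Fin 5 → ℤ), y ∈ C ↔ (fun j => y j + k j) ∈ C := by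
    intro y k
    simp only [C, mem_ofPred_eq, tor_int]
  have hangσ : ∀ y ∈ C, ∀ j, a j (π (σ (tor y)).1) = ((y j : ℝ) : T1) := by
    intro y hy j
    have : π (σ (tor y)).1 = tor y := hσ _ hy
    rw [this, ang_tor]
  have hσR : ∀ y ∈ C, ‖(σ (tor y)).1.1‖ < R₁ := fun y hy => hR₁ _ ⟨_, hy, rfl⟩
  refine hTorus C (hKc.isClosed.preimage tor_cont) ?_
    (fun y => Θ₁ (σ (tor y)).1 (y 0) (y 1)) ?_ ?_ ?_
  · intro y j
    simp only [C, mem_ofPred_eq, tor_ee]
  · have hmaps : ContinuousOn (fun y : Fin 5 → ℝ =>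
        (((σ (tor y)).1, (y 0, y 1)) : (ℂ × EuclideanSpace ℝ (Fin (n - 1))) × ℝ × ℝ)) C := by
      apply ContinuousOn.prodMk
      · exact continuous_subtype_val.comp_continuousOn
          (hσc.comp tor_cont.continuousOn (fun y hy => hy))
      · exact Continuous.continuousOn (by fun_prop)
    exact hΘ₁c.comp hmaps (fun y hy => ⟨hσR y hy, (σ (tor y)).2, hangσ y hy 0, hangσ y hy 1⟩)
  · intro y hy j
    simp only [tor_ee]
    obtain ⟨h1, h2⟩ := hΘ₁ (σ (tor y)).1 (y 0) (y 1) (hσR y hy) (σ (tor y)).2 (hangσ y hy 0)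
      (hangσ y hy 1)
    by_cases hj0 : j = 0
    · subst hj0
      simp only [Pi.add_apply, ee, Pi.single_eq_same]
      rw [if_neg (by decide), add_zero]
      have : (Pi.single 0 1 : Fin 5 → ℝ) 1 = 0 := by simp
      rw [this, add_zero]
      exact h1
    · by_cases hj1 : j = 1
      · subst hj1
        simp only [Pi.add_apply, ee, Pi.single_eq_same, if_true]
        have : (Pi.single 1 1 : Fin 5 → ℝ) 0 = 0 := by simp
        rw [this, add_zero]
        exact h2
      · simp only [Pi.add_apply, ee]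
        have e0 : (Pi.single j 1 : Fin 5 → ℝ) 0 = 0 := by simp [Ne.symm hj0]
        have e1 : (Pi.single j 1 : Fin 5 → ℝ) 1 = 0 := by simp [Ne.symm hj1]
        rw [e0, e1, if_neg hj1]
        simp
  · intro δ hδ
    let A : Set (Fin 5 → ℝ) := {y | ∀ c ∈ C, δ ≤ dist y c}
    have hAcl : IsClosed A := by
      have : A = ⋂ c ∈ C, {y | δ ≤ dist y c} := by
        ext y
        simp [A]
      rw [this]
      exact isClosed_biInter fun c _ => isClosed_le continuous_const (by fun_prop)
    have hAc : ∀ y ∈ A, IsCompact (f ⁻¹' {tor y}) := by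
      intro y hy
      by_contra hcon
      have hyC : y ∈ C := ⟨⟨y, rfl⟩, hcon⟩
      have := hy y hyC
      rw [dist_self] at this
      linarith
    have hTA : IsCompact (tor '' A) := by
      have : tor '' A = tor '' (A ∩ Icc 0 1) := by
        apply Subset.antisymm
        · rintro _ ⟨y, hy, rfl⟩
          refine ⟨fun j => Int.fract (y j), ⟨?_, fun j => Int.fract_nonneg _,
            fun j => (Int.fract_lt_one _).le⟩, ?_⟩
          · intro c hc
            have h1 := hy (fun j => c j + (⌊y j⌋ : ℤ)) ((hCint c _).1 hc)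
            have h2 : dist (fun j => Int.fract (y j)) c =
                dist y (fun j => c j + (⌊y j⌋ : ℤ)) := by
              rw [dist_eq_norm, dist_eq_norm]
              congr 1
              funext j
              simp only [Pi.sub_apply]
              have := Int.fract_add_floor (y j)
              linarith
            rw [h2]
            exact h1
          · rw [← tor_int (fun j => Int.fract (y j)) (fun j => ⌊y j⌋)]
            congr 1
            funext j
            exact Int.fract_add_floor (y j)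
        · exact image_mono inter_subset_left
      rw [this]
      exact (isCompact_Icc.inter_left hAcl).image tor_cont
    obtain ⟨L, hL, hLA⟩ : ∃ L : Set (Total n S), IsCompact L ∧ ∀ m ∈ tor '' A, f ⁻¹' {m} ⊆ L := by
      refine hTA.induction_on (p := fun s => ∃ L : Set (Total n S), IsCompact L ∧
        ∀ m ∈ s, f ⁻¹' {m} ⊆ L) ?_ ?_ ?_ ?_
      · exact ⟨∅, isCompact_empty, by simp⟩
      · rintro s t hst ⟨L, hL, hL'⟩
        exact ⟨L, hL, fun m hm => hL' m (hst hm)⟩
      · rintro s t ⟨L, hL, hL'⟩ ⟨L2, hL2, hL2'⟩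
        refine ⟨L ∪ L2, hL.union hL2, ?_⟩
        rintro m (hm | hm)
        · exact (hL' m hm).trans subset_union_left
        · exact (hL2' m hm).trans subset_union_right
      · rintro _ ⟨y, hy, rfl⟩
        obtain ⟨x, hx⟩ := hsurj y
        have hc := hAc y hy
        rw [← hx] at hc ⊢
        obtain ⟨L, hL, -, hev⟩ := h.stable hc isOpen_univ (subset_univ _)
        exact ⟨_, mem_nhdsWithin_of_mem_nhds hev, L, hL, fun m hm => hm⟩
    obtain ⟨R₂, hR₂⟩ := hbound L hL
    obtain ⟨Θ₂, hΘ₂c, hΘ₂⟩ := H853R3.FQTheta.taskTheta (n - 1) S hS hSd R₂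
      (fun q => a 2 (π q)) (fun q => a 4 (π q)) (hp 2) (hp 4)
    obtain ⟨Θ₃, hΘ₃c, hΘ₃⟩ := H853R3.FQTheta.taskTheta (n - 1) S hS hSd R₂
      (fun q => a 2 (π q)) (fun q => a 3 (π q)) (hp 2) (hp 3)
    have hang : ∀ (x : Total n S) y, f x = tor y → ∀ j, a j (π x.1) = ((y j : ℝ) : T1) := by
      intro x y hxy j
      have : π x.1 = tor y := hxy
      rw [this, ang_tor]
    refine bdata h tor_cont tor_ee hsurj (O := {x | ‖x.1.1‖ < R₂}) ?_
      (D₁ := fun p => Θ₂ p.1.1 (p.2 2) (p.2 4)) (D₂ := fun p => Θ₃ p.1.1 (p.2 2) (p.2 3))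
      ?_ ?_ ?_ ?_ (K := A) ?_
    · exact isOpen_lt (continuous_fst.comp continuous_subtype_val).norm continuous_const
    · have hmaps : Continuous (fun p : Total n S × (Fin 5 → ℝ) =>
          ((p.1.1, (p.2 2, p.2 4)) : (ℂ × EuclideanSpace ℝ (Fin (n - 1))) × ℝ × ℝ)) := by
        fun_prop
      exact hΘ₂c.comp hmaps.continuousOn
        (fun p hp' => ⟨hp'.1, p.1.2, hang _ _ hp'.2 2, hang _ _ hp'.2 4⟩)
    · have hmaps : Continuous (fun p : Total n S × (Fin 5 → ℝ) =>
          ((p.1.1, (p.2 2, p.2 3)) : (ℂ × EuclideanSpace ℝ (Fin (n - 1))) × ℝ × ℝ)) := by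
        fun_prop
      exact hΘ₃c.comp hmaps.continuousOn
        (fun p hp' => ⟨hp'.1, p.1.2, hang _ _ hp'.2 2, hang _ _ hp'.2 3⟩)
    · intro x y hx hxy j
      obtain ⟨h1, h2⟩ := hΘ₂ x.1 (y 2) (y 4) hx x.2 (hang x y hxy 2) (hang x y hxy 4)
      simp only [Pi.add_apply, ee]
      by_cases hj2 : j = 2
      · subst hj2
        have e4 : (Pi.single 2 1 : Fin 5 → ℝ) 4 = 0 := by simp
        rw [Pi.single_eq_same, e4, add_zero, if_neg (by decide)]
        simpa using h1
      · have e2 : (Pi.single j 1 : Fin 5 → ℝ) 2 = 0 := by simp [Ne.symm hj2]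
        rw [e2, add_zero]
        by_cases hj4 : j = 4
        · subst hj4
          rw [Pi.single_eq_same, if_pos rfl]
          exact h2
        · have e4 : (Pi.single j 1 : Fin 5 → ℝ) 4 = 0 := by simp [Ne.symm hj4]
          rw [e4, add_zero, if_neg hj4]
          simp
    · intro x y hx hxy j
      obtain ⟨h1, h2⟩ := hΘ₃ x.1 (y 2) (y 3) hx x.2 (hang x y hxy 2) (hang x y hxy 3)
      simp only [Pi.add_apply, ee]
      by_cases hj2 : j = 2
      · subst hj2
        have e4 : (Pi.single 2 1 : Fin 5 → ℝ) 3 = 0 := by simp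
        rw [Pi.single_eq_same, e4, add_zero, if_neg (by decide)]
        simpa using h1
      · have e2 : (Pi.single j 1 : Fin 5 → ℝ) 2 = 0 := by simp [Ne.symm hj2]
        rw [e2, add_zero]
        by_cases hj4 : j = 3
        · subst hj4
          rw [Pi.single_eq_same, if_pos rfl]
          exact h2
        · have e4 : (Pi.single j 1 : Fin 5 → ℝ) 3 = 0 := by simp [Ne.symm hj4]
          rw [e4, add_zero, if_neg hj4]
          simp
    · intro y hy
      exact ⟨hAc y hy, fun x hx => hR₂ x (hLA _ ⟨y, hy, rfl⟩ hx)⟩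


/-- **Criterion.** Let `M` be an open subset of an `n`-dimensional space. If there are continuous
maps `e : T⁵ → M` and `p : M → T⁵` with `p ∘ e = id`, then `M` is not the quotient of a smooth
complete flow on `(ℝ² ∖ S) × ℝ^(n-1)`. -/
theorem not_realized_gen {F : Type} [NormedAddCommGroup F] [NormedSpace ℝ F]
    [FiniteDimensional ℝ F] {n : ℕ} (hF : Module.finrank ℝ F = n) {M : Set F}
    (hMo : IsOpen M) {e : (Fin 5 → T1) → F} (he : Continuous e) (heM : ∀ y, e y ∈ M)
    {p : F → (Fin 5 → T1)} (hp : ContinuousOn p M) (hpe : ∀ y, p (e y) = y) :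
    ¬ RealizedAsQuotient n M := by
  have hn : 1 ≤ n := by
    rw [← hF]
    have : Nontrivial F := by
      refine ⟨e 0, e (fun _ => ((1 / 2 : ℝ) : T1)), fun h => ?_⟩
      have h1 := congrArg p h
      rw [hpe, hpe] at h1
      have h2 := congrFun h1 0
      have h3 : (((1 / 2 : ℝ)) : T1) = 0 := h2.symm
      rw [AddCircle.coe_eq_zero_iff] at h3
      obtain ⟨k, hk⟩ := h3
      simp only [zsmul_eq_mul, mul_one] at hk
      have h4 : ((2 * k : ℤ) : ℝ) = ((1 : ℤ) : ℝ) := by push_cast; linarith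
      have h5 : 2 * k = 1 := by exact_mod_cast h4
      omega
    exact Module.finrank_pos
  refine not_realized_aux (H790.FQ.taskTorus H672R3.FQ.taskStokes) hn hF hMo
    (tor := fun y => e (fun j => ((y j : ℝ) : T1))) (he.comp ?_) (fun y => heM _) ?_
    (a := fun j m => p m j) (fun j => ?_) ?_
  · exact continuous_pi fun j => (AddCircle.continuous_mk' 1).comp (continuous_apply j)
  · intro y k
    simp only
    congr 1
    funext j
    rw [AddCircle.coe_add]
    have : (((k j : ℤ) : ℝ) : T1) = 0 := by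
      rw [AddCircle.coe_eq_zero_iff]
      exact ⟨k j, by simp⟩
    rw [this, add_zero]
  · exact (continuous_apply j).comp_continuousOn hp
  · intro y j
    simp only [hpe]

end Pool.Agent.Y511.FQ
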